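import Pool.Agent.FpfBump.Uniq

/-!
# MP_46c28c_co: letter increments under fixed-point-free involution Little bumps

For every `π ∈ I^fpf_ℤ` and every fpf-involution word `w`, the word `fb_π(w)` exists, is unique,
has the length of `w`, and each of its letters exceeds the corresponding letter of `w` by
`0`, `1` or `2`.  All definitions are in `Pool/Agent/FpfBump/Defs.lean`.
-/

namespace Pool.Agent.Results.MP_46c28c_co.FpfBumpIncrements

open FpfLittle

/-- Q1, proved: all letter increments under `fb_π` are in `{0, 1, 2}`. -/
theorem result : ∀ π ∈ Ifpf, ∀ w : List ℤ, IsFpfWord w →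
    ∃ v : List ℤ, FBump π w v ∧ (∀ v', FBump π w v' → v' = v) ∧ v.length = w.length ∧
      ∀ (k : ℕ) (h : k < w.length) (h' : k < v.length), v[k] - w[k] ∈ ({0, 1, 2} : Set ℤ) := by
  intro π _ w hw
  have h := fb_spec π w hw
  exact ⟨fb π w, h, fun v' hv' => FBump_unique hw hv' h, bump_increments hw h⟩

end Pool.Agent.Results.MP_46c28c_co.FpfBumpIncrements
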